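import Mathlib
import Pool.Agent.Work.MP_6f77e1_co.Final
import Pool.Agent.Work.MP_6f77e1_co.Lower

set_option autoImplicit false

/-!
# The least period of unavoidable long 2-abelian squares over two letters is three

Every infinite binary word contains a 2-abelian square of period at least two, and there is an
infinite binary word without 2-abelian squares of period at least three. The word is the image,
under a 768-uniform map into binary words, of the fixed point of the morphism
`a → ace, b → adf, c → bdf, d → bdc, e → afe, f → bce`.
-/

namespace Pool.Agent.Results.MP_6f77e1_co.ExactValue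

/-- The number of occurrences of the nonempty word `x` as a factor of the word `u`:
the number of suffixes of `u` that start with `x`. -/
def occ (x u : List Bool) : ℕ := u.tails.countP (fun t => x.isPrefixOf t)

/-- `u` and `v` are `k`-abelian equivalent: every word of length between `1` and `k` occurs
as a factor equally often in `u` and in `v`. -/
def KAbelianEquiv (k : ℕ) (u v : List Bool) : Prop :=
  ∀ x : List Bool, 1 ≤ x.length → x.length ≤ k → occ x u = occ x v

/-- `s` is a 2-abelian square of period `p`: `s = u ++ v` with `u`, `v` nonempty and 2-abelian
equivalent, and `|u| = p`. -/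
def IsTwoAbelianSquare (s : List Bool) (p : ℕ) : Prop :=
  ∃ u v : List Bool, s = u ++ v ∧ u ≠ [] ∧ v ≠ [] ∧ KAbelianEquiv 2 u v ∧ u.length = p

/-- The factor of length `n` starting at position `i` of the infinite word `w`. -/
def factor (w : ℕ → Bool) (i n : ℕ) : List Bool := List.ofFn (fun j : Fin n => w (i + j))

/-- Some infinite binary word has no factor that is a 2-abelian square of period at least `k`. -/
def Avoidable (k : ℕ) : Prop :=
  ∃ w : ℕ → Bool, ∀ i n p : ℕ, k ≤ p → ¬ IsTwoAbelianSquare (factor w i n) p

/-- The least `k ≥ 1` such that 2-abelian squares of period at least `k` are avoidable over two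
letters is `3`. -/
theorem result : IsLeast {k : ℕ | 1 ≤ k ∧ Avoidable k} 3 := by
  have h2 : ¬ Avoidable 2 := Pool.Agent.Work.MP_6f77e1_co.not_avoidable_two
  have h3 : Avoidable 3 := Pool.Agent.Work.MP_6f77e1_co.avoidable_KK
  refine ⟨⟨by norm_num, h3⟩, ?_⟩
  rintro k ⟨-, w, hw⟩
  by_contra hlt
  exact h2 ⟨w, fun i n p hp => hw i n p (by omega)⟩

end Pool.Agent.Results.MP_6f77e1_co.ExactValue
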